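import Pool.Agent.Lib.MP_ba0fa5_ag.Iface

/-!
# Module NFINAL: Cauchy-Schwarz and interpolation between the numbers `Z ^ A`
-/

set_option autoImplicit false

namespace Pool.Agent.Lib.MP_ba0fa5_ag.H75

open Finset Pool.Agent.Lib.MP_ba0fa5_ag
open scoped Classical

lemma odd_of_inQ {S : Set ℕ} (hS : ∀ l ∈ S, l.Prime ∧ l ≠ 2) {n : ℕ} (hn : InQ S n) : Odd n := by
  rw [← Nat.not_even_iff_odd]
  intro h
  exact (hS 2 (hn.2 2 Nat.prime_two h.two_dvd)).2 rfl

lemma inQ_mul {S : Set ℕ} {a b : ℕ} (ha : InQ S a) (hb : InQ S b) : InQ S (a * b) := by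
  refine ⟨Nat.mul_ne_zero ha.1 hb.1, ?_⟩
  intro l hl hd
  rcases (Nat.Prime.dvd_mul hl).1 hd with h | h
  · exact ha.2 l hl h
  · exact hb.2 l hl h

/-- The genus of a quadruple. -/
def gam (t : ℕ × ℕ × ℕ × ℕ) : ℕ := (t.2.2.2 * hh t.1 t.2.1 t.2.2.1 + 2 - (t.2.2.1 + t.2.1)) / 2

lemma gam_spec {S : Set ℕ} {K Z : ℕ} (hS : ∀ l ∈ S, l.Prime ∧ l ≠ 2) (hZ : 3 ≤ Z)
    (t : ℕ × ℕ × ℕ × ℕ) (ht : t ∈ TT S K Z) :
    2 * gam t + (t.2.2.1 + t.2.1) = t.2.2.2 * hh t.1 t.2.1 t.2.2.1 + 2 ∧ 1 ≤ gam t ∧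
      gam t ≤ XX K Z := by
  obtain ⟨n, v, u, x⟩ := t
  simp only [TT, qset, Finset.mem_filter, Finset.mem_product, Finset.mem_Ioc] at ht
  obtain ⟨⟨⟨⟨a1, a2⟩, a3⟩, ⟨⟨b1, b2⟩, b3⟩, ⟨⟨c1, c2⟩, c3⟩, ⟨⟨d1, d2⟩, d3⟩⟩, e1⟩ := ht
  have o1 := odd_of_inQ hS a3
  have o2 := odd_of_inQ hS b3
  have o3 := odd_of_inQ hS c3
  have o4 := odd_of_inQ hS d3
  have hu : 1 ≤ u := Nat.pos_of_ne_zero c3.1
  have h1 : 4 * (v * u) ≤ n * v * u := by
    rw [mul_assoc]
    exact Nat.mul_le_mul_right _ (by omega)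
  have h2 : v + u ≤ v * u + 1 := by nlinarith
  have hv : 4 ≤ v := by omega
  have h3 : 4 ≤ v * u := by nlinarith
  have h4 : hh n v u + 1 = n * v * u := by unfold hh; omega
  have h5 : v + u + 1 ≤ hh n v u := by omega
  have h6 : hh n v u ≤ x * hh n v u := Nat.le_mul_of_pos_left _ d1
  have h7 : Even (x * hh n v u) := by
    apply Even.mul_left
    have h8 : Odd (n * v * u) := (o1.mul o2).mul o3
    unfold hh
    obtain ⟨r, hr⟩ := h8
    exact ⟨r, by omega⟩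
  have h9 : Even (u + v) := o3.add_odd o2
  have hg : gam (n, v, u, x) = (x * hh n v u + 2 - (u + v)) / 2 := rfl
  obtain ⟨r, hr⟩ := h7
  obtain ⟨s, hs⟩ := h9
  rw [hg]
  simp only
  omega

lemma gam_rep {S : Set ℕ} {K Z : ℕ} (hS : ∀ l ∈ S, l.Prime ∧ l ≠ 2) (hZ : 3 ≤ Z)
    (t : ℕ × ℕ × ℕ × ℕ) (ht : t ∈ TT' S K Z) : RepQ S (gam t) := by
  have ht' := (Finset.mem_filter.1 ht)
  have h1 := (gam_spec hS hZ t ht'.1).1
  obtain ⟨n, v, u, x⟩ := t
  have ht2 := ht'.1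
  simp only [TT, qset, Finset.mem_filter, Finset.mem_product, Finset.mem_Ioc] at ht2
  obtain ⟨⟨⟨⟨a1, a2⟩, a3⟩, ⟨⟨b1, b2⟩, b3⟩, ⟨⟨c1, c2⟩, c3⟩, ⟨⟨d1, d2⟩, d3⟩⟩, e1⟩ := ht2
  obtain ⟨f1, f2, f3⟩ := ht'.2
  simp only at h1 f1 f2 f3
  refine ⟨x * (n * v * u), x, u, v, inQ_mul d3 (inQ_mul (inQ_mul a3 b3) c3), f1, f2, f3, ?_, ?_⟩
  · exact ⟨n, by ring⟩
  · have h4 : hh n v u + 1 = n * v * u := by
      unfold hh
      have : 1 ≤ n * v * u := Nat.pos_of_ne_zero (Nat.mul_ne_zero (Nat.mul_ne_zero a3.1 b3.1) c3.1)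
      omega
    rw [← h4, mul_add, mul_one]
    omega

lemma gam_coinc {S : Set ℕ} {K Z : ℕ} (hS : ∀ l ∈ S, l.Prime ∧ l ≠ 2) (hZ : 3 ≤ Z)
    (t t' : ℕ × ℕ × ℕ × ℕ) (ht : t ∈ TT S K Z) (ht' : t' ∈ TT S K Z) (h : gam t = gam t') :
    Coinc t t' := by
  have h1 := (gam_spec hS hZ t ht).1
  have h2 := (gam_spec hS hZ t' ht').1
  unfold Coinc
  rw [h] at h1
  omega

/-- NFINAL. -/
theorem nfinal (hLow : NlowStmt) (hFm : NfmStmt) (hSm : NsmStmt) : NfinalStmt := by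
  intro S hM
  obtain ⟨K, hK⟩ := hLow S hM
  have hS := hM.1
  have hK3 := hK.1
  obtain ⟨c, hc, Z1, h1⟩ := hFm S K hM hK
  obtain ⟨C, Z2, h2⟩ := hSm S K hM hK3
  set C' := |C| + 1 with hC'
  have hC'0 : 0 < C' := by positivity
  set A := 8 * (3 * K + 12 * K * K) with hA
  have hA1 : 1 ≤ A := by rw [hA]; nlinarith
  -- the bound at the numbers `Z ^ A`
  have key : ∀ Z : ℕ, max (max Z1 Z2) 3 ≤ Z →
      c ^ 2 / C' * (XX K Z : ℝ) ≤ (((Finset.Icc 1 (XX K Z)).filter (RepQ S)).card : ℝ) := by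
    intro Z hZ
    have hZ1 : Z1 ≤ Z := le_trans (le_trans (le_max_left _ _) (le_max_left _ _)) hZ
    have hZ2 : Z2 ≤ Z := le_trans (le_trans (le_max_right _ _) (le_max_left _ _)) hZ
    have hZ3 : 3 ≤ Z := le_trans (le_max_right _ _) hZ
    have hX : (0 : ℝ) < XX K Z := by
      have : 0 < XX K Z := by unfold XX; positivity
      exact_mod_cast this
    set I := (Finset.Icc 1 (XX K Z)).filter (RepQ S) with hI
    have hmap : ∀ t ∈ TT' S K Z, gam t ∈ I := by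
      intro t ht
      have ht' := (Finset.mem_filter.1 ht).1
      have h3 := gam_spec hS hZ3 t ht'
      rw [hI, Finset.mem_filter, Finset.mem_Icc]
      exact ⟨⟨h3.2.1, h3.2.2⟩, gam_rep hS hZ3 t ht⟩
    have e1 := Finset.card_eq_sum_card_fiberwise hmap
    have e2 : (∑ g ∈ I, (((TT' S K Z).filter (fun t => gam t = g)).card : ℝ)) ^ 2 ≤
        (I.card : ℝ) * ∑ g ∈ I, (((TT' S K Z).filter (fun t => gam t = g)).card : ℝ) ^ 2 :=
      sq_sum_le_card_mul_sum_sq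
    have e3 : ∑ g ∈ I, (((TT' S K Z).filter (fun t => gam t = g)).card : ℝ) ^ 2 ≤
        (((TT S K Z ×ˢ TT S K Z).filter (fun q => Coinc q.1 q.2)).card : ℝ) := by
      have e4 : ∀ g ∈ I, (((TT' S K Z).filter (fun t => gam t = g)).card : ℝ) ^ 2 =
          ((((TT' S K Z) ×ˢ (TT' S K Z)).filter (fun q => gam q.1 = g ∧ gam q.2 = g)).card : ℝ) := by
        intro g _
        have e : ((TT' S K Z) ×ˢ (TT' S K Z)).filter (fun q => gam q.1 = g ∧ gam q.2 = g) =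
            ((TT' S K Z).filter (fun t => gam t = g)) ×ˢ
              ((TT' S K Z).filter (fun t => gam t = g)) := by
          ext q
          simp only [Finset.mem_filter, Finset.mem_product]
          tauto
        rw [e, Finset.card_product]
        push_cast
        ring
      rw [Finset.sum_congr rfl e4, ← Nat.cast_sum]
      rw [← Finset.card_biUnion]
      · apply Nat.cast_le.2
        apply Finset.card_le_card
        intro q hq
        rw [Finset.mem_biUnion] at hq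
        obtain ⟨g, _, hq⟩ := hq
        rw [Finset.mem_filter, Finset.mem_product] at hq
        obtain ⟨⟨q1, q2⟩, q3, q4⟩ := hq
        have q1' := (Finset.mem_filter.1 q1).1
        have q2' := (Finset.mem_filter.1 q2).1
        rw [Finset.mem_filter, Finset.mem_product]
        exact ⟨⟨q1', q2'⟩, gam_coinc hS hZ3 _ _ q1' q2' (q3.trans q4.symm)⟩
      · intro g _ g' _ hgg'
        rw [Function.onFun, Finset.disjoint_left]
        intro q hq hq'
        rw [Finset.mem_filter] at hq hq'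
        exact hgg' (hq.2.1.symm.trans hq'.2.1)
    have e5 : ((TT' S K Z).card : ℝ) ^ 2 ≤ (I.card : ℝ) * (C' * XX K Z) := by
      rw [e1, Nat.cast_sum]
      refine le_trans e2 ?_
      apply mul_le_mul_of_nonneg_left _ (Nat.cast_nonneg _)
      refine le_trans e3 (le_trans (h2 Z hZ2) ?_)
      apply mul_le_mul_of_nonneg_right _ hX.le
      have := le_abs_self C
      linarith
    have e6 := h1 Z hZ1
    have e7 : (c * XX K Z) ^ 2 ≤ (I.card : ℝ) * (C' * XX K Z) :=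
      le_trans (pow_le_pow_left₀ (by positivity) e6 2) e5
    have e8 : c ^ 2 * (XX K Z : ℝ) ≤ (I.card : ℝ) * C' := by
      have : (c ^ 2 * (XX K Z : ℝ)) * XX K Z ≤ ((I.card : ℝ) * C') * XX K Z := by
        calc (c ^ 2 * (XX K Z : ℝ)) * XX K Z = (c * XX K Z) ^ 2 := by ring
          _ ≤ _ := e7
          _ = _ := by ring
      exact le_of_mul_le_mul_right this hX
    rw [div_mul_eq_mul_div, div_le_iff₀ hC'0]
    exact e8
  refine ⟨c ^ 2 / C' / 2 ^ A, by positivity, (max (max Z1 Z2) 3) ^ A, ?_⟩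
  intro X hX
  set Z := Nat.findGreatest (fun z => z ^ A ≤ X) X with hZdef
  have hZ0 : max (max Z1 Z2) 3 ≤ Z := by
    exact Nat.le_findGreatest (P := fun z => z ^ A ≤ X)
      (le_trans (Nat.le_self_pow (by omega) _) hX) hX
  have hZ1 : Z ^ A ≤ X := by
    have : (fun z => z ^ A ≤ X) Z := Nat.findGreatest_spec (P := fun z => z ^ A ≤ X)
      (m := max (max Z1 Z2) 3) (le_trans (Nat.le_self_pow (by omega) _) hX) hX
    exact this
  have hZ3 : 3 ≤ Z := le_trans (le_max_right _ _) hZ0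
  have hZ2 : X < (Z + 1) ^ A := by
    by_contra hcon
    push Not at hcon
    have h3 : Z + 1 ≤ X := le_trans (Nat.le_self_pow (by omega) _) hcon
    have h4 : Z + 1 ≤ Z := Nat.le_findGreatest (P := fun z => z ^ A ≤ X) h3 hcon
    omega
  have hXX : XX K Z = Z ^ A := by unfold XX; rw [hA]
  have h3 := key Z hZ0
  have h4 : (((Finset.Icc 1 (XX K Z)).filter (RepQ S)).card : ℝ) ≤
      (((Finset.Icc 1 X).filter (RepQ S)).card : ℝ) := by
    apply Nat.cast_le.2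
    apply Finset.card_le_card
    apply Finset.filter_subset_filter
    apply Finset.Icc_subset_Icc_right
    rw [hXX]
    exact hZ1
  refine le_trans ?_ (le_trans h3 h4)
  have h5 : (X : ℝ) ≤ 2 ^ A * (XX K Z : ℝ) := by
    have : X ≤ 2 ^ A * Z ^ A := by
      rw [← mul_pow]
      exact le_trans hZ2.le (Nat.pow_le_pow_left (by omega) A)
    rw [hXX]
    exact_mod_cast this
  rw [div_mul_eq_mul_div, div_le_iff₀ (by positivity)]
  calc c ^ 2 / C' * (X : ℝ) ≤ c ^ 2 / C' * (2 ^ A * (XX K Z : ℝ)) :=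
        mul_le_mul_of_nonneg_left h5 (by positivity)
    _ = _ := by ring

end Pool.Agent.Lib.MP_ba0fa5_ag.H75
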