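import Pool.Agent.Lib.MP_ba0fa5_ag.Iface

/-!
# Module NMM: the pairs with `(n, v) ≠ (n', v')` and `u + v ≠ u' + v'`
-/

set_option autoImplicit false

namespace Pool.Agent.Lib.MP_ba0fa5_ag.H75

open Finset Pool.Agent.Lib.MP_ba0fa5_ag
open scoped Classical

lemma mem_qset {S : Set ℕ} {lo hi n : ℕ} : n ∈ qset S lo hi ↔ (lo < n ∧ n ≤ hi) ∧ InQ S n := by
  simp [qset]

lemma Phi_pos (S : Set ℕ) (n : ℕ) : 1 ≤ Phi S n := by
  unfold Phi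
  apply Finset.prod_induction _ (fun x : ℝ => 1 ≤ x)
    (fun a b ha hb => one_le_mul_of_one_le_of_one_le ha hb) le_rfl
  intro l _
  have : (0 : ℝ) ≤ 2 / (l : ℝ) := by positivity
  linarith

lemma Psi_pos (n : ℕ) : 1 ≤ Psi n := by
  unfold Psi
  apply Finset.prod_induction _ (fun x : ℝ => 1 ≤ x)
    (fun a b ha hb => one_le_mul_of_one_le_of_one_le ha hb) le_rfl
  intro l _
  have : (0 : ℝ) ≤ 52 / (l : ℝ) := by positivity
  linarith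

lemma amgm (a b c : ℝ) (ha : 0 ≤ a) (hb : 0 ≤ b) (hc : 0 ≤ c) :
    a * b * c ≤ a ^ 3 + b ^ 3 + c ^ 3 := by
  nlinarith [mul_nonneg ha (sq_nonneg (b - c)), mul_nonneg hb (sq_nonneg (a - c)),
    mul_nonneg hc (sq_nonneg (a - b)), mul_nonneg (add_nonneg (add_nonneg ha hb) hc)
      (add_nonneg (add_nonneg (sq_nonneg (a - b)) (sq_nonneg (b - c))) (sq_nonneg (a - c))),
    pow_nonneg ha 3, pow_nonneg hb 3, pow_nonneg hc 3]

/-- The residue class of `u` modulo a divisor of `n v u - 1`. -/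
lemma class_of_dvd {n v t u u₀ : ℕ} (hn : 1 ≤ n) (hv : 1 ≤ v) (hu : 1 ≤ u) (hu₀ : 1 ≤ u₀)
    (ht : t.Coprime (n * v)) (h : t ∣ hh n v u) (h₀ : t ∣ hh n v u₀) : u ≡ u₀ [MOD t] := by
  unfold hh at h h₀
  have h1 : (t : ℤ) ∣ (n * v * u : ℤ) - 1 := by
    have : 1 ≤ n * v * u := Nat.one_le_iff_ne_zero.2 (by positivity)
    have h2 := Int.natCast_dvd_natCast.2 h
    rwa [Nat.cast_sub this, Nat.cast_mul, Nat.cast_mul, Nat.cast_one] at h2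
  have h3 : (t : ℤ) ∣ (n * v * u₀ : ℤ) - 1 := by
    have : 1 ≤ n * v * u₀ := Nat.one_le_iff_ne_zero.2 (by positivity)
    have h2 := Int.natCast_dvd_natCast.2 h₀
    rwa [Nat.cast_sub this, Nat.cast_mul, Nat.cast_mul, Nat.cast_one] at h2
  have h4 : (t : ℤ) ∣ (n * v : ℤ) * ((u₀ : ℤ) - u) := by
    have := dvd_sub h3 h1
    have h5 : ((n * v * u₀ : ℤ) - 1) - ((n * v * u : ℤ) - 1) = (n * v : ℤ) * ((u₀ : ℤ) - u) := by
      ring
    rwa [h5] at this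
  have h5 : IsCoprime (t : ℤ) ((n * v : ℕ) : ℤ) := Nat.isCoprime_iff_coprime.2 ht
  rw [Nat.modEq_iff_dvd]
  have h6 : (t : ℤ) ∣ ((n * v : ℕ) : ℤ) * ((u₀ : ℤ) - u) := by push_cast; exact h4
  exact h5.dvd_of_dvd_mul_left h6

lemma coprime_of_dvd {n v t u : ℕ} (hn : 1 ≤ n) (hv : 1 ≤ v) (hu : 1 ≤ u)
    (h : t ∣ hh n v u) : u.Coprime t := by
  unfold hh at h
  have h1 : 1 ≤ n * v * u := Nat.one_le_iff_ne_zero.2 (by positivity)
  have h2 : (n * v * u - 1).Coprime (n * v * u) := by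
    have h3 := Nat.coprime_self_add_right (m := n * v * u - 1) (n := 1)
    have h4 : n * v * u - 1 + 1 = n * v * u := by omega
    rw [h4] at h3
    exact h3.2 (Nat.coprime_one_right _)
  have h3 : t.Coprime (n * v * u) := Nat.Coprime.coprime_dvd_left h h2
  exact (Nat.Coprime.coprime_dvd_right (Dvd.intro_left _ rfl) h3).symm

section Bounds

variable {S : Set ℕ} {K Z : ℕ}

/-- The bounds for the sums over `u` in one class. -/
structure UB (S : Set ℕ) (K Z : ℕ) (C L : ℝ) : Prop where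
  C0 : 0 ≤ C
  L0 : 0 < L
  ap : ∀ t a : ℕ, 1 ≤ t → t ≤ 2 * Z ^ (5 * K) → a.Coprime t →
    ∑ u ∈ (qset S (U1 K Z) (U2 K Z)).filter (fun u => u ≡ a [MOD t]), (1 : ℝ) / u ≤
      C * L ^ (1 / 4 : ℝ) / t.totient
  ph : ∀ t a₀ α : ℕ, ∀ β : ℤ, 1 ≤ t → t ≤ 2 * Z ^ (5 * K) → a₀.Coprime t → 1 ≤ α →
    α ≤ XX K Z → |β| ≤ (XX K Z : ℤ) → Int.gcd α β = 1 →
    ∑ u ∈ (qset S (U1 K Z) (U2 K Z)).filter (fun u => u ≡ a₀ [MOD t] ∧ (α * u : ℤ) + β ≠ 0),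
      Phi S ((α * u : ℤ) + β).natAbs ^ 3 / u ≤ C * L ^ (1 / 4 : ℝ) * Psi t / t.totient

lemma ub_ap {C L : ℝ} (H : UB S K Z C L) {n v t : ℕ} (hn : 1 ≤ n) (hv : 1 ≤ v) (ht1 : 1 ≤ t)
    (ht : t ≤ 2 * Z ^ (5 * K)) (hc : t.Coprime (n * v)) :
    ∑ u ∈ (qset S (U1 K Z) (U2 K Z)).filter (fun u => t ∣ hh n v u), (1 : ℝ) / u ≤
      C * L ^ (1 / 4 : ℝ) / t.totient := by
  have hpos : 0 ≤ C * L ^ (1 / 4 : ℝ) / t.totient :=
    div_nonneg (mul_nonneg H.C0 (Real.rpow_nonneg H.L0.le _)) (Nat.cast_nonneg _)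
  rcases Finset.eq_empty_or_nonempty
    ((qset S (U1 K Z) (U2 K Z)).filter (fun u => t ∣ hh n v u)) with h | ⟨u₀, h₀⟩
  · rw [h, Finset.sum_empty]; exact hpos
  · rw [Finset.mem_filter, mem_qset] at h₀
    have hu₀ : 1 ≤ u₀ := by omega
    refine le_trans (Finset.sum_le_sum_of_subset_of_nonneg ?_ ?_)
      (H.ap t u₀ ht1 ht (coprime_of_dvd hn hv hu₀ h₀.2))
    · intro u hu
      rw [Finset.mem_filter] at hu ⊢
      refine ⟨hu.1, ?_⟩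
      have hu1 := mem_qset.1 hu.1
      exact class_of_dvd hn hv (by omega) hu₀ hc hu.2 h₀.2
    · intro u _ _
      positivity

lemma ub_ph {C L : ℝ} (H : UB S K Z C L) {n v t : ℕ} (hn : 1 ≤ n) (hv : 1 ≤ v) (ht1 : 1 ≤ t)
    (ht : t ≤ 2 * Z ^ (5 * K)) (hc : t.Coprime (n * v)) (α : ℕ) (β : ℤ) (hα : 1 ≤ α)
    (hα2 : α ≤ XX K Z) (hβ : |β| ≤ (XX K Z : ℤ)) (hg : Int.gcd α β = 1) :
    ∑ u ∈ (qset S (U1 K Z) (U2 K Z)).filter
        (fun u => t ∣ hh n v u ∧ (α * u : ℤ) + β ≠ 0),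
      Phi S ((α * u : ℤ) + β).natAbs ^ 3 / u ≤ C * L ^ (1 / 4 : ℝ) * Psi t / t.totient := by
  have hpos : 0 ≤ C * L ^ (1 / 4 : ℝ) * Psi t / t.totient :=
    div_nonneg (mul_nonneg (mul_nonneg H.C0 (Real.rpow_nonneg H.L0.le _))
      (le_trans zero_le_one (Psi_pos t))) (Nat.cast_nonneg _)
  rcases Finset.eq_empty_or_nonempty ((qset S (U1 K Z) (U2 K Z)).filter
        (fun u => t ∣ hh n v u ∧ (α * u : ℤ) + β ≠ 0)) with h | ⟨u₀, h₀⟩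
  · rw [h, Finset.sum_empty]; exact hpos
  · rw [Finset.mem_filter, mem_qset] at h₀
    have hu₀ : 1 ≤ u₀ := by omega
    refine le_trans (Finset.sum_le_sum_of_subset_of_nonneg ?_ ?_)
      (H.ph t u₀ α β ht1 ht (coprime_of_dvd hn hv hu₀ h₀.2.1) hα hα2 hβ hg)
    · intro u hu
      rw [Finset.mem_filter] at hu ⊢
      refine ⟨hu.1, ?_, hu.2.2⟩
      have hu1 := mem_qset.1 hu.1
      exact class_of_dvd hn hv (by omega) hu₀ hc hu.2.1 h₀.2.1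
    · intro u _ _
      have := Phi_pos S ((α * u : ℤ) + β).natAbs
      positivity

/-- `Δ` -/
def De (q : ℕ × ℕ × ℕ × ℕ) (w : ℕ × ℕ) : ℤ := (w.1 : ℤ) + q.2.1 - w.2 - q.2.2.2

/-- The sum over `u` and `u'` for a fixed divisor `t`. -/
lemma inner {C L : ℝ} (H : UB S K Z C L) (hK : 3 ≤ K) (hZ : 2 ≤ Z) (q : ℕ × ℕ × ℕ × ℕ)
    (h1 : 1 ≤ q.1 ∧ q.1 ≤ Z ^ K) (h2 : 1 ≤ q.2.1 ∧ q.2.1 ≤ Z ^ K)
    (h3 : 1 ≤ q.2.2.1 ∧ q.2.2.1 ≤ Z ^ K) (h4 : 1 ≤ q.2.2.2 ∧ q.2.2.2 ≤ Z ^ K) (t : ℕ)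
    (ht1 : 1 ≤ t) (ht : t ≤ 2 * Z ^ (5 * K)) (hc : t.Coprime (q.1 * q.2.1 * (q.2.2.1 * q.2.2.2))) :
    ∑ w ∈ qset S (U1 K Z) (U2 K Z) ×ˢ qset S (U1 K Z) (U2 K Z),
      (if t ∣ hh q.1 q.2.1 w.1 ∧ t ∣ hh q.2.2.1 q.2.2.2 w.2 ∧ De q w ≠ 0 then
        (1 / ((w.1 : ℝ) * w.2)) * (Phi S (hh q.1 q.2.1 w.1) ^ 3 +
          Phi S (hh q.2.2.1 q.2.2.2 w.2) ^ 3 + Phi S (De q w).natAbs ^ 3) else 0) ≤
      3 * (C ^ 2 * L ^ (1 / 2 : ℝ) * Psi t / (t.totient : ℝ) ^ 2) := by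
  obtain ⟨n, v, n', v'⟩ := q
  simp only at h1 h2 h3 h4 hc ⊢
  set B := qset S (U1 K Z) (U2 K Z) with hB
  have hZK : Z ^ K ≤ XX K Z := by
    unfold XX
    exact Nat.pow_le_pow_right (by omega) (by nlinarith)
  have hZ2 : Z ^ K * Z ^ K ≤ XX K Z := by
    unfold XX
    rw [← pow_add]
    exact Nat.pow_le_pow_right (by omega) (by nlinarith)
  have hU2 : U2 K Z + (Z ^ K + Z ^ K) ≤ XX K Z := by
    unfold U2 XX
    have e1 : Z ^ K ≤ Z ^ (12 * K * K) := Nat.pow_le_pow_right (by omega) (by nlinarith)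
    have e2 : 4 * Z ^ (12 * K * K) ≤ Z ^ (2 + 12 * K * K) := by
      rw [pow_add]
      exact Nat.mul_le_mul_right _ (by nlinarith)
    have e3 : Z ^ (2 + 12 * K * K) ≤ Z ^ (8 * (3 * K + 12 * K * K)) :=
      Nat.pow_le_pow_right (by omega) (by nlinarith)
    omega
  have hc1 : t.Coprime (n * v) := Nat.Coprime.coprime_mul_right_right hc
  have hc2 : t.Coprime (n' * v') := Nat.Coprime.coprime_mul_left_right hc
  have hLp : L ^ (1 / 4 : ℝ) * L ^ (1 / 4 : ℝ) = L ^ (1 / 2 : ℝ) := by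
    rw [← Real.rpow_add H.L0]; norm_num
  have hφ : (0 : ℝ) < t.totient := by
    have := Nat.totient_pos.2 ht1
    exact_mod_cast this
  have hΨ := Psi_pos t
  have hC := H.C0
  have hL4 : 0 ≤ L ^ (1 / 4 : ℝ) := Real.rpow_nonneg H.L0.le _
  -- the five sums
  have a1 := ub_ap H h1.1 h2.1 ht1 ht hc1
  have a2 := ub_ap H h3.1 h4.1 ht1 ht hc2
  have hhn : ∀ n v u : ℕ, 1 ≤ n → 1 ≤ v → 1 ≤ u →
      (((n * v : ℕ) : ℤ) * u + (-1)).natAbs = hh n v u := by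
    intro n v u h1 h2 h3
    unfold hh
    have : 1 ≤ n * v * u := Nat.one_le_iff_ne_zero.2 (by positivity)
    have h4 : (((n * v : ℕ) : ℤ) * u + (-1)) = ((n * v * u - 1 : ℕ) : ℤ) := by
      rw [Nat.cast_sub this]; push_cast; ring
    rw [h4, Int.natAbs_natCast]
  have hUU : ∀ u ∈ B, 1 ≤ u ∧ 2 ≤ u ∧ u ≤ U2 K Z := by
    intro u hu
    have := mem_qset.1 hu
    have e : 1 ≤ U1 K Z := Nat.one_le_iff_ne_zero.2 (by unfold U1; positivity)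
    omega
  have hne : ∀ n v u : ℕ, 1 ≤ n → 1 ≤ v → u ∈ B → (((n * v : ℕ) : ℤ) * u + (-1)) ≠ 0 := by
    intro n v u h1 h2 h3 h4
    have h5 := hUU u h3
    have h6 : (1 : ℤ) ≤ ((n * v : ℕ) : ℤ) := by
      have : 1 ≤ n * v := Nat.one_le_iff_ne_zero.2 (by positivity)
      exact_mod_cast this
    have h7 : (2 : ℤ) ≤ (u : ℤ) := by exact_mod_cast h5.2.1
    nlinarith
  have hphg : ∀ n v : ℕ, 1 ≤ n → 1 ≤ v → n ≤ Z ^ K → v ≤ Z ^ K → t.Coprime (n * v) →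
      ∑ u ∈ B.filter (fun u => t ∣ hh n v u), Phi S (hh n v u) ^ 3 / u ≤
        C * L ^ (1 / 4 : ℝ) * Psi t / t.totient := by
    intro n v h1 h2 h3 h4 h5
    have e1 := ub_ph H h1 h2 ht1 ht h5 (n * v) (-1)
      (Nat.one_le_iff_ne_zero.2 (by positivity)) (le_trans (Nat.mul_le_mul h3 h4) hZ2)
      (by
        have : 1 ≤ XX K Z := Nat.one_le_iff_ne_zero.2 (by unfold XX; positivity)
        simpa using this) (by simp)
    refine le_trans (le_of_eq ?_) e1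
    apply Finset.sum_congr
    · ext u
      simp only [Finset.mem_filter]
      constructor
      · rintro ⟨e2, e3⟩
        exact ⟨e2, e3, hne n v u h1 h2 e2⟩
      · rintro ⟨e2, e3, _⟩
        exact ⟨e2, e3⟩
    · intro u hu
      rw [Finset.mem_filter] at hu
      rw [hhn n v u h1 h2 (hUU u hu.1).1]
  have b1 := hphg n v h1.1 h2.1 h1.2 h2.2 hc1
  have b2 := hphg n' v' h3.1 h4.1 h3.2 h4.2 hc2
  have b3 : ∀ u' ∈ B, ∑ u ∈ B.filter (fun u => t ∣ hh n v u ∧ De (n, v, n', v') (u, u') ≠ 0),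
      Phi S (De (n, v, n', v') (u, u')).natAbs ^ 3 / u ≤
        C * L ^ (1 / 4 : ℝ) * Psi t / t.totient := by
    intro u' hu'
    have e1 := ub_ph H h1.1 h2.1 ht1 ht hc1 1 ((v : ℤ) - u' - v') le_rfl
      (le_trans (Nat.one_le_iff_ne_zero.2 (by positivity)) hZK)
      (by
        have := (hUU u' hu').2.2
        have e2 : (u' : ℤ) ≤ U2 K Z := by exact_mod_cast this
        have e3 : (v : ℤ) ≤ ((Z ^ K : ℕ) : ℤ) := by exact_mod_cast h2.2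
        have e4 : (v' : ℤ) ≤ ((Z ^ K : ℕ) : ℤ) := by exact_mod_cast h4.2
        have e5 : (U2 K Z : ℤ) + (((Z ^ K : ℕ) : ℤ) + ((Z ^ K : ℕ) : ℤ)) ≤ XX K Z := by
          exact_mod_cast hU2
        have e6 : (0 : ℤ) ≤ u' := Int.natCast_nonneg _
        have e7 : (0 : ℤ) ≤ v' := Int.natCast_nonneg _
        have e8 : (0 : ℤ) ≤ v := Int.natCast_nonneg _
        rw [abs_le]
        constructor <;> linarith) (by simp)
    refine le_trans (le_of_eq ?_) e1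
    apply Finset.sum_congr
    · ext u
      simp only [Finset.mem_filter, De]
      have : ((1 : ℕ) : ℤ) * u + ((v : ℤ) - u' - v') = (u : ℤ) + v - u' - v' := by push_cast; ring
      rw [this]
    · intro u _
      have : ((1 : ℕ) : ℤ) * u + ((v : ℤ) - u' - v') = (u : ℤ) + v - u' - v' := by push_cast; ring
      rw [this]
      simp only [De]
  -- splitting
  set B1 := B.filter (fun u => t ∣ hh n v u) with hB1
  set B2 := B.filter (fun u => t ∣ hh n' v' u) with hB2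
  have hsplit : ∀ w ∈ B ×ˢ B, (if t ∣ hh n v w.1 ∧ t ∣ hh n' v' w.2 ∧ De (n, v, n', v') w ≠ 0 then
        (1 / ((w.1 : ℝ) * w.2)) * (Phi S (hh n v w.1) ^ 3 +
          Phi S (hh n' v' w.2) ^ 3 + Phi S (De (n, v, n', v') w).natAbs ^ 3) else 0) ≤
      (if t ∣ hh n v w.1 then Phi S (hh n v w.1) ^ 3 / w.1 else 0) *
        (if t ∣ hh n' v' w.2 then 1 / (w.2 : ℝ) else 0) +
      (if t ∣ hh n v w.1 then 1 / (w.1 : ℝ) else 0) *
        (if t ∣ hh n' v' w.2 then Phi S (hh n' v' w.2) ^ 3 / w.2 else 0) +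
      (if t ∣ hh n' v' w.2 then 1 / (w.2 : ℝ) else 0) *
        (if t ∣ hh n v w.1 ∧ De (n, v, n', v') w ≠ 0 then
          Phi S (De (n, v, n', v') w).natAbs ^ 3 / w.1 else 0) := by
    intro w _
    have p1 := Phi_pos S (hh n v w.1)
    have p2 := Phi_pos S (hh n' v' w.2)
    have p3 := Phi_pos S (De (n, v, n', v') w).natAbs
    by_cases c1 : t ∣ hh n v w.1
    · by_cases c2 : t ∣ hh n' v' w.2
      · by_cases c3 : De (n, v, n', v') w ≠ 0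
        · rw [if_pos ⟨c1, c2, c3⟩, if_pos c1, if_pos c2, if_pos c1, if_pos c2, if_pos ⟨c1, c3⟩]
          apply le_of_eq
          field_simp
        · rw [if_neg (fun h => c3 h.2.2)]
          simp only [c1, c2, if_true]
          have : (0 : ℝ) ≤ (if True ∧ De (n, v, n', v') w ≠ 0 then
            Phi S (De (n, v, n', v') w).natAbs ^ 3 / (w.1 : ℝ) else 0) := by
            split_ifs <;> positivity
          positivity
      · rw [if_neg (fun h => c2 h.2.1)]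
        simp [c2]
    · rw [if_neg (fun h => c1 h.1)]
      simp [c1]
  refine le_trans (Finset.sum_le_sum hsplit) ?_
  rw [Finset.sum_add_distrib, Finset.sum_add_distrib]
  have s1 : ∑ w ∈ B ×ˢ B, (if t ∣ hh n v w.1 then Phi S (hh n v w.1) ^ 3 / (w.1 : ℝ) else 0) *
        (if t ∣ hh n' v' w.2 then 1 / (w.2 : ℝ) else 0) =
      (∑ u ∈ B1, Phi S (hh n v u) ^ 3 / (u : ℝ)) * ∑ u ∈ B2, 1 / (u : ℝ) := by
    rw [Finset.sum_product, Finset.sum_filter, Finset.sum_filter, Finset.sum_mul_sum]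
  have s2 : ∑ w ∈ B ×ˢ B, (if t ∣ hh n v w.1 then 1 / (w.1 : ℝ) else 0) *
        (if t ∣ hh n' v' w.2 then Phi S (hh n' v' w.2) ^ 3 / (w.2 : ℝ) else 0) =
      (∑ u ∈ B1, 1 / (u : ℝ)) * ∑ u ∈ B2, Phi S (hh n' v' u) ^ 3 / (u : ℝ) := by
    rw [Finset.sum_product, Finset.sum_filter, Finset.sum_filter, Finset.sum_mul_sum]
  have s3 : ∑ w ∈ B ×ˢ B, (if t ∣ hh n' v' w.2 then 1 / (w.2 : ℝ) else 0) *
        (if t ∣ hh n v w.1 ∧ De (n, v, n', v') w ≠ 0 then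
          Phi S (De (n, v, n', v') w).natAbs ^ 3 / (w.1 : ℝ) else 0) ≤
      (∑ u ∈ B2, 1 / (u : ℝ)) * (C * L ^ (1 / 4 : ℝ) * Psi t / t.totient) := by
    rw [Finset.sum_product_right, Finset.sum_filter, Finset.sum_mul]
    apply Finset.sum_le_sum
    intro u' hu'
    by_cases hd : t ∣ hh n' v' u'
    · simp only [hd, if_true]
      have := b3 u' hu'
      rw [Finset.sum_filter] at this
      rw [← Finset.mul_sum]
      exact mul_le_mul_of_nonneg_left this (by positivity)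
    · simp [hd]
  rw [s1, s2]
  have n1 : 0 ≤ ∑ u ∈ B1, 1 / (u : ℝ) := Finset.sum_nonneg fun u _ => by positivity
  have n2 : 0 ≤ ∑ u ∈ B2, 1 / (u : ℝ) := Finset.sum_nonneg fun u _ => by positivity
  have n3 : 0 ≤ ∑ u ∈ B1, Phi S (hh n v u) ^ 3 / (u : ℝ) := Finset.sum_nonneg fun u _ => by
    have := Phi_pos S (hh n v u)
    positivity
  have n4 : 0 ≤ ∑ u ∈ B2, Phi S (hh n' v' u) ^ 3 / (u : ℝ) := Finset.sum_nonneg fun u _ => by
    have := Phi_pos S (hh n' v' u)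
    positivity
  have m1 : (0 : ℝ) ≤ C * L ^ (1 / 4 : ℝ) / t.totient := by positivity
  have m2 : (0 : ℝ) ≤ C * L ^ (1 / 4 : ℝ) * Psi t / t.totient := by positivity
  have f1 := mul_le_mul b1 a2 n2 m2
  have f2 := mul_le_mul a1 b2 n4 m1
  have f3 := mul_le_mul_of_nonneg_right a2 m2
  have f4 : C * L ^ (1 / 4 : ℝ) * Psi t / t.totient * (C * L ^ (1 / 4 : ℝ) / t.totient) =
      C ^ 2 * L ^ (1 / 2 : ℝ) * Psi t / (t.totient : ℝ) ^ 2 := by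
    rw [← hLp]; field_simp
  have f5 : C * L ^ (1 / 4 : ℝ) / t.totient * (C * L ^ (1 / 4 : ℝ) * Psi t / t.totient) =
      C ^ 2 * L ^ (1 / 2 : ℝ) * Psi t / (t.totient : ℝ) ^ 2 := by
    rw [← hLp]; field_simp
  rw [f4] at f1
  rw [f5] at f2 f3
  linarith

/-- The contribution of one index. -/
noncomputable def Gf (S : Set ℕ) (q : ℕ × ℕ × ℕ × ℕ) (w : ℕ × ℕ) : ℝ :=
  if (¬ (q.1 = q.2.2.1 ∧ q.2.1 = q.2.2.2) ∧ De q w ≠ 0 ∧
      (((hh q.1 q.2.1 w.1).gcd (hh q.2.2.1 q.2.2.2 w.2) : ℕ) : ℤ) ∣ De q w) then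
    (((hh q.1 q.2.1 w.1).gcd (hh q.2.2.1 q.2.2.2 w.2) : ℕ) : ℝ) /
      ((hh q.1 q.2.1 w.1 : ℝ) * (hh q.2.2.1 q.2.2.2 w.2 : ℝ)) *
      (Phi S (hh q.1 q.2.1 w.1) * Phi S (hh q.2.2.1 q.2.2.2 w.2) * Phi S (De q w).natAbs)
  else 0

lemma Gf_nonneg (S : Set ℕ) (q : ℕ × ℕ × ℕ × ℕ) (w : ℕ × ℕ) : 0 ≤ Gf S q w := by
  unfold Gf
  have h1 := Phi_pos S (hh q.1 q.2.1 w.1)
  have h2 := Phi_pos S (hh q.2.2.1 q.2.2.2 w.2)
  have h3 := Phi_pos S (De q w).natAbs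
  split_ifs <;> positivity

lemma inv_hh {n v u : ℕ} (hn : 1 ≤ n) (hv : 1 ≤ v) (hu : 2 ≤ u) :
    0 < (hh n v u : ℝ) ∧ 1 / (hh n v u : ℝ) ≤ 2 / ((n : ℝ) * v * u) := by
  have h1 : 1 ≤ n * v := Nat.one_le_iff_ne_zero.2 (by positivity)
  have h2 : 2 ≤ n * v * u := by nlinarith
  have h3 : (hh n v u : ℝ) = (n : ℝ) * v * u - 1 := by
    unfold hh
    rw [Nat.cast_sub (by omega)]
    push_cast
    ring
  have h4 : (2 : ℝ) ≤ (n : ℝ) * v * u := by exact_mod_cast h2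
  refine ⟨by rw [h3]; linarith, ?_⟩
  rw [h3, div_le_div_iff₀ (by linarith) (by linarith)]
  linarith

/-- The divisors which matter for `q`. -/
noncomputable def Dq (q : ℕ × ℕ × ℕ × ℕ) : Finset ℕ :=
  (EE q.1 q.2.1 q.2.2.1 q.2.2.2).natAbs.divisors.filter
    (fun t => t.Coprime (q.1 * q.2.1 * (q.2.2.1 * q.2.2.2)))

/-- The bound for one index. -/
lemma Gf_le (hAlg : NalgStmt) (S : Set ℕ) (q : ℕ × ℕ × ℕ × ℕ) (w : ℕ × ℕ) (h1 : 1 ≤ q.1)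
    (h2 : 1 ≤ q.2.1) (h3 : 1 ≤ q.2.2.1) (h4 : 1 ≤ q.2.2.2) (hu : 2 ≤ w.1) (hu' : 2 ≤ w.2) :
    Gf S q w ≤ (4 / ((q.1 : ℝ) * q.2.1 * q.2.2.1 * q.2.2.2)) * ∑ t ∈ Dq q, (t.totient : ℝ) *
      (if t ∣ hh q.1 q.2.1 w.1 ∧ t ∣ hh q.2.2.1 q.2.2.2 w.2 ∧ De q w ≠ 0 then
        (1 / ((w.1 : ℝ) * w.2)) * (Phi S (hh q.1 q.2.1 w.1) ^ 3 +
          Phi S (hh q.2.2.1 q.2.2.2 w.2) ^ 3 + Phi S (De q w).natAbs ^ 3) else 0) := by
  have p1 := Phi_pos S (hh q.1 q.2.1 w.1)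
  have p2 := Phi_pos S (hh q.2.2.1 q.2.2.2 w.2)
  have p3 := Phi_pos S (De q w).natAbs
  have hR : 0 ≤ (4 / ((q.1 : ℝ) * q.2.1 * q.2.2.1 * q.2.2.2)) * ∑ t ∈ Dq q, (t.totient : ℝ) *
      (if t ∣ hh q.1 q.2.1 w.1 ∧ t ∣ hh q.2.2.1 q.2.2.2 w.2 ∧ De q w ≠ 0 then
        (1 / ((w.1 : ℝ) * w.2)) * (Phi S (hh q.1 q.2.1 w.1) ^ 3 +
          Phi S (hh q.2.2.1 q.2.2.2 w.2) ^ 3 + Phi S (De q w).natAbs ^ 3) else 0) := by
    apply mul_nonneg (by positivity)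
    apply Finset.sum_nonneg
    intro t _
    split_ifs <;> positivity
  by_cases hcond : (¬ (q.1 = q.2.2.1 ∧ q.2.1 = q.2.2.2) ∧ De q w ≠ 0 ∧
      (((hh q.1 q.2.1 w.1).gcd (hh q.2.2.1 q.2.2.2 w.2) : ℕ) : ℤ) ∣ De q w)
  swap
  · unfold Gf
    rw [if_neg hcond]
    exact hR
  obtain ⟨c1, c2, c3⟩ := hcond
  have hGf : Gf S q w = (((hh q.1 q.2.1 w.1).gcd (hh q.2.2.1 q.2.2.2 w.2) : ℕ) : ℝ) /
      ((hh q.1 q.2.1 w.1 : ℝ) * (hh q.2.2.1 q.2.2.2 w.2 : ℝ)) *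
      (Phi S (hh q.1 q.2.1 w.1) * Phi S (hh q.2.2.1 q.2.2.2 w.2) * Phi S (De q w).natAbs) := by
    unfold Gf
    rw [if_pos ⟨c1, c2, c3⟩]
  rw [hGf]
  set h := hh q.1 q.2.1 w.1 with hh1
  set h' := hh q.2.2.1 q.2.2.2 w.2 with hh2
  set F := Phi S h ^ 3 + Phi S h' ^ 3 + Phi S (De q w).natAbs ^ 3 with hF
  have hF0 : 0 ≤ F := by positivity
  obtain ⟨i1, i2⟩ := inv_hh h1 h2 hu
  obtain ⟨i3, i4⟩ := inv_hh h3 h4 hu'
  have hG : ((h.gcd h' : ℕ) : ℝ) ≤ ∑ t ∈ Dq q, (t.totient : ℝ) * (if t ∣ h ∧ t ∣ h' ∧ De q w ≠ 0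
      then 1 else 0) := by
    have g1 : ((h.gcd h' : ℕ) : ℝ) = ∑ t ∈ (h.gcd h').divisors, (t.totient : ℝ) := by
      rw [← Nat.cast_sum, Nat.sum_totient]
    rw [g1]
    have g2 : ∑ t ∈ Dq q, (t.totient : ℝ) * (if t ∣ h ∧ t ∣ h' ∧ De q w ≠ 0 then 1 else 0) =
        ∑ t ∈ (Dq q).filter (fun t => t ∣ h ∧ t ∣ h' ∧ De q w ≠ 0), (t.totient : ℝ) := by
      rw [Finset.sum_filter]
      apply Finset.sum_congr rfl
      intro t _
      split_ifs <;> simp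
    rw [g2]
    apply Finset.sum_le_sum_of_subset_of_nonneg
    · intro t ht
      rw [Nat.mem_divisors] at ht
      have e1 : t ∣ h := ht.1.trans (Nat.gcd_dvd_left _ _)
      have e2 : t ∣ h' := ht.1.trans (Nat.gcd_dvd_right _ _)
      have e3 : (t : ℤ) ∣ De q w := (Int.natCast_dvd_natCast.2 ht.1).trans c3
      have e4 := hAlg.2.1 q.1 q.2.1 w.1 q.2.2.1 q.2.2.2 w.2 t h1 h2 (by omega) h3 h4 (by omega)
        e1 e2
      have e5 : EE q.1 q.2.1 q.2.2.1 q.2.2.2 ≠ 0 := fun e => c1 (hAlg.1 _ _ _ _ h1 h2 h3 h4 e)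
      rw [Finset.mem_filter]
      refine ⟨?_, e1, e2, c2⟩
      unfold Dq
      rw [Finset.mem_filter, Nat.mem_divisors]
      exact ⟨⟨Int.natCast_dvd.1 (e4.2 e3), Int.natAbs_ne_zero.2 e5⟩, e4.1⟩
    · intro t _ _
      positivity
  have hprod := amgm (Phi S h) (Phi S h') (Phi S (De q w).natAbs) (by linarith) (by linarith)
    (by linarith)
  have hinv : 1 / ((h : ℝ) * h') ≤ (4 / ((q.1 : ℝ) * q.2.1 * q.2.2.1 * q.2.2.2)) *
      (1 / ((w.1 : ℝ) * w.2)) := by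
    have e1 : 1 / ((h : ℝ) * h') = (1 / (h : ℝ)) * (1 / (h' : ℝ)) := by
      rw [one_div_mul_one_div]
    rw [e1]
    refine le_trans (mul_le_mul i2 i4 (by positivity) (by positivity)) (le_of_eq ?_)
    field_simp
    ring
  calc ((h.gcd h' : ℕ) : ℝ) / ((h : ℝ) * (h' : ℝ)) *
        (Phi S h * Phi S h' * Phi S (De q w).natAbs)
      = ((h.gcd h' : ℕ) : ℝ) * ((1 / ((h : ℝ) * h')) *
        (Phi S h * Phi S h' * Phi S (De q w).natAbs)) := by ring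
    _ ≤ (∑ t ∈ Dq q, (t.totient : ℝ) * (if t ∣ h ∧ t ∣ h' ∧ De q w ≠ 0 then 1 else 0)) *
        (((4 / ((q.1 : ℝ) * q.2.1 * q.2.2.1 * q.2.2.2)) * (1 / ((w.1 : ℝ) * w.2))) * F) := by
        apply mul_le_mul hG _ (by positivity) _
        · exact mul_le_mul hinv hprod (by positivity) (by positivity)
        · apply Finset.sum_nonneg
          intro t _
          split_ifs <;> positivity
    _ = _ := by
        rw [Finset.sum_mul, Finset.mul_sum]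
        apply Finset.sum_congr rfl
        intro t _
        split_ifs <;> ring

/-- The sum of the contributions of all `w`. -/
lemma sum_Gf {C L : ℝ} (hAlg : NalgStmt) (H : UB S K Z C L) (hK : 3 ≤ K) (hZ : 2 ≤ Z)
    (q : ℕ × ℕ × ℕ × ℕ)
    (hq : q ∈ qset S Z (Z ^ K) ×ˢ qset S Z (Z ^ K) ×ˢ qset S Z (Z ^ K) ×ˢ qset S Z (Z ^ K))
    (hne : ¬ (q.1 = q.2.2.1 ∧ q.2.1 = q.2.2.2)) :
    ∑ w ∈ qset S (U1 K Z) (U2 K Z) ×ˢ qset S (U1 K Z) (U2 K Z), Gf S q w ≤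
      12 * C ^ 2 * L ^ (1 / 2 : ℝ) * ((1 / ((q.1 : ℝ) * q.2.1 * q.2.2.1 * q.2.2.2)) *
        ∑ t ∈ Dq q, Psi t / t.totient) := by
  simp only [Finset.mem_product, mem_qset] at hq
  obtain ⟨⟨⟨a1, a2⟩, _⟩, ⟨⟨b1, b2⟩, _⟩, ⟨⟨c1, c2⟩, _⟩, ⟨⟨d1, d2⟩, _⟩⟩ := hq
  have hUU : ∀ w ∈ qset S (U1 K Z) (U2 K Z) ×ˢ qset S (U1 K Z) (U2 K Z), 2 ≤ w.1 ∧ 2 ≤ w.2 := by
    intro w hw
    simp only [Finset.mem_product, mem_qset] at hw
    have e : 1 ≤ U1 K Z := Nat.one_le_iff_ne_zero.2 (by unfold U1; positivity)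
    omega
  refine le_trans (Finset.sum_le_sum fun w hw => Gf_le hAlg S q w (by omega) (by omega)
    (by omega) (by omega) (hUU w hw).1 (hUU w hw).2) ?_
  rw [← Finset.mul_sum, Finset.sum_comm]
  have hin : ∀ t ∈ Dq q, ∑ w ∈ qset S (U1 K Z) (U2 K Z) ×ˢ qset S (U1 K Z) (U2 K Z),
      (t.totient : ℝ) * (if t ∣ hh q.1 q.2.1 w.1 ∧ t ∣ hh q.2.2.1 q.2.2.2 w.2 ∧ De q w ≠ 0 then
        (1 / ((w.1 : ℝ) * w.2)) * (Phi S (hh q.1 q.2.1 w.1) ^ 3 +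
          Phi S (hh q.2.2.1 q.2.2.2 w.2) ^ 3 + Phi S (De q w).natAbs ^ 3) else 0) ≤
      3 * C ^ 2 * L ^ (1 / 2 : ℝ) * (Psi t / t.totient) := by
    intro t ht
    unfold Dq at ht
    rw [Finset.mem_filter, Nat.mem_divisors] at ht
    have ht1 : 1 ≤ t := Nat.pos_of_ne_zero fun h => by
      rw [h] at ht; exact ht.1.2 (Nat.eq_zero_of_zero_dvd ht.1.1)
    have ht2 : t ≤ 2 * Z ^ (5 * K) := by
      have e1 := Nat.le_of_dvd (Nat.pos_of_ne_zero ht.1.2) ht.1.1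
      have e2 := hAlg.2.2 q.1 q.2.1 q.2.2.1 q.2.2.2 (Z ^ K) a2 b2 c2 d2
      rw [Int.abs_eq_natAbs] at e2
      have e3 : (EE q.1 q.2.1 q.2.2.1 q.2.2.2).natAbs ≤ 2 * (Z ^ K) ^ 5 := by
        exact_mod_cast e2
      have e4 : (Z ^ K) ^ 5 = Z ^ (5 * K) := by rw [← pow_mul]; ring_nf
      rw [e4] at e3
      omega
    have hφ : (0 : ℝ) < t.totient := by
      have := Nat.totient_pos.2 ht1
      exact_mod_cast this
    rw [← Finset.mul_sum]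
    refine le_trans (mul_le_mul_of_nonneg_left (inner H hK hZ q ⟨by omega, a2⟩ ⟨by omega, b2⟩
      ⟨by omega, c2⟩ ⟨by omega, d2⟩ t ht1 ht2 ht.2) hφ.le) (le_of_eq ?_)
    field_simp
  refine le_trans (mul_le_mul_of_nonneg_left (Finset.sum_le_sum hin) (by positivity))
    (le_of_eq ?_)
  rw [← Finset.mul_sum]
  ring

/-- The pairs that are counted. -/
noncomputable def PP (S : Set ℕ) (K Z : ℕ) : Finset ((ℕ × ℕ × ℕ × ℕ) × (ℕ × ℕ × ℕ × ℕ)) :=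
  (TT S K Z ×ˢ TT S K Z).filter (fun q => ¬ (q.1.1 = q.2.1 ∧ q.1.2.1 = q.2.2.1) ∧
      q.1.2.2.1 + q.1.2.1 ≠ q.2.2.2.1 + q.2.2.1 ∧ Coinc q.1 q.2)

/-- The index of a pair. -/
def idx (a : (ℕ × ℕ × ℕ × ℕ) × (ℕ × ℕ × ℕ × ℕ)) : (ℕ × ℕ × ℕ × ℕ) × (ℕ × ℕ) :=
  ((a.1.1, a.1.2.1, a.2.1, a.2.2.1), (a.1.2.2.1, a.2.2.2.1))

lemma card_PP {C : ℝ} (hC : 0 ≤ C) (hK : 3 ≤ K) (hZ : 2 ≤ Z)
    (hp : ∀ (h h' : ℕ) (Δ : ℤ), 1 ≤ h → 1 ≤ h' → h ≤ Z ^ (3 * K + 12 * K * K) →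
      h' ≤ Z ^ (3 * K + 12 * K * K) → Δ ≠ 0 → |Δ| ≤ (XX K Z : ℤ) →
      (((qset S 0 (XX K Z) ×ˢ qset S 0 (XX K Z)).filter (fun t : ℕ × ℕ =>
          (t.1 * h : ℤ) - t.2 * h' = Δ ∧ t.1 * h ≤ XX K Z)).card : ℝ) ≤
        C * ((XX K Z : ℝ) * (h.gcd h') / (h * h')) * (Real.log Z) ^ (-(3 / 2) : ℝ)
          * (Phi S h * Phi S h' * Phi S Δ.natAbs)) :
    ((PP S K Z).card : ℝ) ≤ C * XX K Z * (Real.log Z) ^ (-(3 / 2) : ℝ) *
      ∑ q ∈ qset S Z (Z ^ K) ×ˢ qset S Z (Z ^ K) ×ˢ qset S Z (Z ^ K) ×ˢ qset S Z (Z ^ K),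
        ∑ w ∈ qset S (U1 K Z) (U2 K Z) ×ˢ qset S (U1 K Z) (U2 K Z), Gf S q w := by
  have hlog : 0 ≤ (Real.log Z) ^ (-(3 / 2) : ℝ) :=
    Real.rpow_nonneg (Real.log_nonneg (by exact_mod_cast (by omega : 1 ≤ Z))) _
  have hmap : ∀ a ∈ PP S K Z, idx a ∈ (qset S Z (Z ^ K) ×ˢ qset S Z (Z ^ K) ×ˢ
      qset S Z (Z ^ K) ×ˢ qset S Z (Z ^ K)) ×ˢ
      (qset S (U1 K Z) (U2 K Z) ×ˢ qset S (U1 K Z) (U2 K Z)) := by
    intro a ha
    simp only [PP, TT, Finset.mem_filter, Finset.mem_product] at ha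
    simp only [idx, Finset.mem_product]
    tauto
  rw [Finset.card_eq_sum_card_fiberwise hmap, Nat.cast_sum, ← Finset.sum_product',
    Finset.mul_sum]
  apply Finset.sum_le_sum
  rintro ⟨q, w⟩ hb
  have hGf := Gf_nonneg S q w
  rcases Finset.eq_empty_or_nonempty ((PP S K Z).filter (fun a => idx a = (q, w))) with h0 | h0
  · rw [h0, Finset.card_empty]
    push_cast
    positivity
  obtain ⟨a0, ha0⟩ := h0
  obtain ⟨n, v, n', v'⟩ := q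
  obtain ⟨u, u'⟩ := w
  simp only [Finset.mem_product, mem_qset] at hb
  obtain ⟨⟨⟨⟨a1, a2⟩, _⟩, ⟨⟨b1, b2⟩, _⟩, ⟨⟨c1, c2⟩, _⟩, ⟨⟨d1, d2⟩, _⟩⟩, ⟨⟨u1, u2⟩, _⟩,
    ⟨⟨v1, v2⟩, _⟩⟩ := hb
  have hU1 : 1 ≤ U1 K Z := Nat.one_le_iff_ne_zero.2 (by unfold U1; positivity)
  have hmem : ∀ a, a ∈ (PP S K Z).filter (fun a => idx a = ((n, v, n', v'), (u, u'))) →
      ∃ x x' : ℕ, a = ((n, v, u, x), (n', v', u', x')) ∧ x ∈ qset S 0 (XX K Z) ∧
        x' ∈ qset S 0 (XX K Z) ∧ x * hh n v u ≤ XX K Z ∧ ¬ (n = n' ∧ v = v') ∧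
        u + v ≠ u' + v' ∧ x * hh n v u + (u' + v') = x' * hh n' v' u' + (u + v) := by
    rintro ⟨⟨n1, v1, u1, x1⟩, ⟨n2, v2, u2, x2⟩⟩ ha
    simp only [PP, TT, idx, Coinc, Finset.mem_filter, Finset.mem_product, Prod.mk.injEq] at ha
    obtain ⟨⟨⟨⟨⟨_, _, _, e1⟩, e2⟩, ⟨_, _, _, e3⟩, _⟩, e4, e5, e6⟩, ⟨rfl, rfl, rfl, rfl⟩,
      rfl, rfl⟩ := ha
    exact ⟨x1, x2, rfl, e1, e3, e2, e4, e5, e6⟩
  have hZpow : Z ^ K * Z ^ K * Z ^ (12 * K * K) ≤ Z ^ (3 * K + 12 * K * K) := by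
    rw [← pow_add, ← pow_add]
    exact Nat.pow_le_pow_right (by omega) (by omega)
  have hhle : ∀ n v u : ℕ, n ≤ Z ^ K → v ≤ Z ^ K → u ≤ U2 K Z →
      hh n v u ≤ Z ^ (3 * K + 12 * K * K) := by
    intro n v u h1 h2 h3
    unfold hh
    have : n * v * u ≤ Z ^ K * Z ^ K * Z ^ (12 * K * K) :=
      Nat.mul_le_mul (Nat.mul_le_mul h1 h2) h3
    omega
  have hhge : ∀ n v u : ℕ, 1 ≤ n → 1 ≤ v → 2 ≤ u → 1 ≤ hh n v u := by
    intro n v u h1 h2 h3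
    have := (inv_hh h1 h2 h3).1
    have h4 : 0 < hh n v u := by exact_mod_cast this
    exact h4
  have hbig : U2 K Z + (Z ^ K + Z ^ K) ≤ XX K Z := by
    unfold U2 XX
    have e1 : Z ^ K ≤ Z ^ (12 * K * K) := Nat.pow_le_pow_right (by omega) (by nlinarith)
    have e2 : 4 * Z ^ (12 * K * K) ≤ Z ^ (2 + 12 * K * K) := by
      rw [pow_add]
      exact Nat.mul_le_mul_right _ (by nlinarith)
    have e3 : Z ^ (2 + 12 * K * K) ≤ Z ^ (8 * (3 * K + 12 * K * K)) :=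
      Nat.pow_le_pow_right (by omega) (by nlinarith)
    omega
  obtain ⟨x0, x0', -, -, -, -, f1, f2, f3⟩ := hmem a0 ha0
  have hDe : De (n, v, n', v') (u, u') = (u : ℤ) + v - u' - v' := rfl
  have hDne : De (n, v, n', v') (u, u') ≠ 0 := by
    rw [hDe]
    intro h
    apply f2
    omega
  have hDle : |De (n, v, n', v') (u, u')| ≤ (XX K Z : ℤ) := by
    rw [hDe, abs_le]
    have e2 : (u' : ℤ) ≤ U2 K Z := by exact_mod_cast v2
    have e2' : (u : ℤ) ≤ U2 K Z := by exact_mod_cast u2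
    have e3 : (v : ℤ) ≤ ((Z ^ K : ℕ) : ℤ) := by exact_mod_cast b2
    have e4 : (v' : ℤ) ≤ ((Z ^ K : ℕ) : ℤ) := by exact_mod_cast d2
    have e5 : (U2 K Z : ℤ) + (((Z ^ K : ℕ) : ℤ) + ((Z ^ K : ℕ) : ℤ)) ≤ XX K Z := by
      exact_mod_cast hbig
    have e6 : (0 : ℤ) ≤ u' := Int.natCast_nonneg _
    have e7 : (0 : ℤ) ≤ v' := Int.natCast_nonneg _
    have e8 : (0 : ℤ) ≤ v := Int.natCast_nonneg _
    have e9 : (0 : ℤ) ≤ u := Int.natCast_nonneg _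
    constructor <;> linarith
  have hGd : (((hh n v u).gcd (hh n' v' u') : ℕ) : ℤ) ∣ De (n, v, n', v') (u, u') := by
    have e1 : De (n, v, n', v') (u, u') = (x0 : ℤ) * hh n v u - x0' * hh n' v' u' := by
      rw [hDe]
      have : ((x0 * hh n v u + (u' + v') : ℕ) : ℤ) = ((x0' * hh n' v' u' + (u + v) : ℕ) : ℤ) := by
        rw [f3]
      push_cast at this
      linarith
    rw [e1]
    apply dvd_sub
    · exact (Int.natCast_dvd_natCast.2 (Nat.gcd_dvd_left _ _)).mul_left _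
    · exact (Int.natCast_dvd_natCast.2 (Nat.gcd_dvd_right _ _)).mul_left _
  have hcardle : ((PP S K Z).filter (fun a => idx a = ((n, v, n', v'), (u, u')))).card ≤
      ((qset S 0 (XX K Z) ×ˢ qset S 0 (XX K Z)).filter (fun t : ℕ × ℕ =>
          (t.1 * hh n v u : ℤ) - t.2 * hh n' v' u' = De (n, v, n', v') (u, u') ∧
          t.1 * hh n v u ≤ XX K Z)).card := by
    apply Finset.card_le_card_of_injOn (fun a => (a.1.2.2.2, a.2.2.2.2))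
    · intro a ha
      obtain ⟨x, x', rfl, g1, g2, g3, g4, g5, g6⟩ := hmem a (by simpa using ha)
      simp only [Finset.coe_filter, Set.mem_setOf_eq, Finset.mem_product]
      refine ⟨⟨g1, g2⟩, ?_, g3⟩
      rw [hDe]
      have : ((x * hh n v u + (u' + v') : ℕ) : ℤ) = ((x' * hh n' v' u' + (u + v) : ℕ) : ℤ) := by
        rw [g6]
      push_cast at this
      linarith
    · intro a ha b hb' hab
      obtain ⟨x, x', rfl, _⟩ := hmem a (by simpa using ha)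
      obtain ⟨y, y', rfl, _⟩ := hmem b (by simpa using hb')
      simp only [Prod.mk.injEq] at hab
      rw [hab.1, hab.2]
  have hmain := hp (hh n v u) (hh n' v' u') (De (n, v, n', v') (u, u'))
    (hhge n v u (by omega) (by omega) (by omega)) (hhge n' v' u' (by omega) (by omega) (by omega))
    (hhle n v u a2 b2 u2) (hhle n' v' u' c2 d2 v2) hDne hDle
  have hGfe : Gf S (n, v, n', v') (u, u') = (((hh n v u).gcd (hh n' v' u') : ℕ) : ℝ) /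
      ((hh n v u : ℝ) * (hh n' v' u' : ℝ)) *
      (Phi S (hh n v u) * Phi S (hh n' v' u') * Phi S (De (n, v, n', v') (u, u')).natAbs) := by
    unfold Gf
    rw [if_pos ⟨f1, hDne, hGd⟩]
  dsimp only
  rw [hGfe]
  refine le_trans (Nat.cast_le.2 hcardle) (le_trans hmain (le_of_eq ?_))
  ring

end Bounds

/-- NMM. -/
theorem nmm (hPair : NpairStmt) (hAlg : NalgStmt) (hPhi : NphiStmt) (hAp : NapsumStmt)
    (hTs : NtsumStmt) : NmmStmt := by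
  intro S K hM hK
  obtain ⟨Cp, Zp, hp⟩ := hPair S K hM hK
  obtain ⟨Cf, Zf, hf⟩ := hPhi S K hM hK
  obtain ⟨Ca, ya, ha⟩ := hAp S K hM (by omega)
  obtain ⟨Ct, Zt, hts⟩ := hTs S K hM hK
  set C := max |Cf| (|Ca| * (12 * K : ℝ) ^ (1 / 4 : ℝ)) with hCdef
  refine ⟨|Cp| * (12 * C ^ 2 * |Ct|), max (max Zp Zf) (max (max ya Zt) 3), ?_⟩
  intro Z hZ
  have hZp : Zp ≤ Z := le_trans (le_trans (le_max_left _ _) (le_max_left _ _)) hZ
  have hZf : Zf ≤ Z := le_trans (le_trans (le_max_right _ _) (le_max_left _ _)) hZ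
  have hZa : ya ≤ Z := le_trans (le_trans (le_trans (le_max_left _ _) (le_max_left _ _))
    (le_max_right _ _)) hZ
  have hZt : Zt ≤ Z := le_trans (le_trans (le_trans (le_max_right _ _) (le_max_left _ _))
    (le_max_right _ _)) hZ
  have hZ3 : 3 ≤ Z := le_trans (le_trans (le_max_right _ _) (le_max_right _ _)) hZ
  have hL : 0 < Real.log Z := Real.log_pos (by exact_mod_cast (by omega : 1 < Z))
  have hL4 : 0 ≤ (Real.log Z) ^ (1 / 4 : ℝ) := Real.rpow_nonneg hL.le _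
  have hC0 : 0 ≤ C := le_trans (abs_nonneg Cf) (le_max_left _ _)
  have H : UB S K Z C (Real.log Z) := by
    refine ⟨hC0, hL, ?_, ?_⟩
    · intro t a ht1 ht2 hc
      have e1 : ya ≤ U1 K Z := by
        unfold U1
        exact le_trans hZa (Nat.le_self_pow (by omega) Z)
      have e2 : t ^ 2 ≤ U1 K Z := by
        unfold U1
        calc t ^ 2 ≤ (2 * Z ^ (5 * K)) ^ 2 := Nat.pow_le_pow_left ht2 2
          _ = 4 * Z ^ (10 * K) := by rw [mul_pow, ← pow_mul]; ring_nf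
          _ ≤ Z ^ (2 * K) * Z ^ (10 * K) := by
            apply Nat.mul_le_mul_right
            calc 4 ≤ 3 ^ 2 := by norm_num
              _ ≤ Z ^ 2 := Nat.pow_le_pow_left hZ3 2
              _ ≤ Z ^ (2 * K) := Nat.pow_le_pow_right (by omega) (by omega)
          _ = Z ^ (12 * K) := by rw [← pow_add]; ring_nf
      have e3 := ha (U1 K Z) e1 t a ht1 e2 hc
      have e4 : U1 K Z ^ K = U2 K Z := by
        unfold U1 U2
        rw [← pow_mul]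
      rw [e4] at e3
      have e5 : Real.log (U1 K Z : ℕ) = (12 * K : ℝ) * Real.log Z := by
        unfold U1
        rw [Nat.cast_pow, Real.log_pow]
        push_cast
        ring
      rw [e5, Real.mul_rpow (by positivity) hL.le] at e3
      refine le_trans e3 ?_
      apply div_le_div_of_nonneg_right _ (Nat.cast_nonneg _)
      have e6 : Ca * ((12 * K : ℝ) ^ (1 / 4 : ℝ) * (Real.log Z) ^ (1 / 4 : ℝ)) ≤
          (|Ca| * (12 * K : ℝ) ^ (1 / 4 : ℝ)) * (Real.log Z) ^ (1 / 4 : ℝ) := by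
        rw [← mul_assoc]
        apply mul_le_mul_of_nonneg_right _ hL4
        apply mul_le_mul_of_nonneg_right (le_abs_self _)
        positivity
      refine le_trans e6 (mul_le_mul_of_nonneg_right (le_max_right _ _) hL4)
    · intro t a₀ α β h1 h2 h3 h4 h5 h6 h7
      refine le_trans (hf Z hZf t a₀ α β h1 h2 h3 h4 h5 h6 h7) ?_
      apply div_le_div_of_nonneg_right _ (Nat.cast_nonneg _)
      apply mul_le_mul_of_nonneg_right _ (le_trans zero_le_one (Psi_pos t))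
      apply mul_le_mul_of_nonneg_right _ hL4
      exact le_trans (le_abs_self _) (le_max_left _ _)
  have hp' : ∀ (h h' : ℕ) (Δ : ℤ), 1 ≤ h → 1 ≤ h' → h ≤ Z ^ (3 * K + 12 * K * K) →
      h' ≤ Z ^ (3 * K + 12 * K * K) → Δ ≠ 0 → |Δ| ≤ (XX K Z : ℤ) →
      (((qset S 0 (XX K Z) ×ˢ qset S 0 (XX K Z)).filter (fun t : ℕ × ℕ =>
          (t.1 * h : ℤ) - t.2 * h' = Δ ∧ t.1 * h ≤ XX K Z)).card : ℝ) ≤
        |Cp| * ((XX K Z : ℝ) * (h.gcd h') / (h * h')) * (Real.log Z) ^ (-(3 / 2) : ℝ)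
          * (Phi S h * Phi S h' * Phi S Δ.natAbs) := by
    intro h h' Δ h1 h2 h3 h4 h5 h6
    refine le_trans (hp Z hZp h h' Δ h1 h2 h3 h4 h5 h6) ?_
    have p1 := Phi_pos S h
    have p2 := Phi_pos S h'
    have p3 := Phi_pos S Δ.natAbs
    have p4 : 0 ≤ (Real.log Z) ^ (-(3 / 2) : ℝ) := Real.rpow_nonneg hL.le _
    apply mul_le_mul_of_nonneg_right _ (by positivity)
    apply mul_le_mul_of_nonneg_right _ p4
    apply mul_le_mul_of_nonneg_right (le_abs_self _) (by positivity)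
  have h1 := card_PP (S := S) (abs_nonneg Cp) hK (by omega) hp'
  have h2 : ∑ q ∈ qset S Z (Z ^ K) ×ˢ qset S Z (Z ^ K) ×ˢ qset S Z (Z ^ K) ×ˢ qset S Z (Z ^ K),
        ∑ w ∈ qset S (U1 K Z) (U2 K Z) ×ˢ qset S (U1 K Z) (U2 K Z), Gf S q w ≤
      12 * C ^ 2 * (Real.log Z) ^ (1 / 2 : ℝ) * (|Ct| * Real.log Z) := by
    have e1 : ∑ q ∈ qset S Z (Z ^ K) ×ˢ qset S Z (Z ^ K) ×ˢ qset S Z (Z ^ K) ×ˢ qset S Z (Z ^ K),
        ∑ w ∈ qset S (U1 K Z) (U2 K Z) ×ˢ qset S (U1 K Z) (U2 K Z), Gf S q w =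
        ∑ q ∈ (qset S Z (Z ^ K) ×ˢ qset S Z (Z ^ K) ×ˢ qset S Z (Z ^ K) ×ˢ
          qset S Z (Z ^ K)).filter (fun q => ¬ (q.1 = q.2.2.1 ∧ q.2.1 = q.2.2.2)),
        ∑ w ∈ qset S (U1 K Z) (U2 K Z) ×ˢ qset S (U1 K Z) (U2 K Z), Gf S q w := by
      rw [Finset.sum_filter]
      apply Finset.sum_congr rfl
      intro q _
      split_ifs with hq
      · apply Finset.sum_eq_zero
        intro w _
        unfold Gf
        rw [if_neg (fun h => h.1 hq)]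
      · rfl
    rw [e1]
    refine le_trans (Finset.sum_le_sum fun q hq => sum_Gf hAlg H hK (by omega) q
      (Finset.mem_filter.1 hq).1 (Finset.mem_filter.1 hq).2) ?_
    rw [← Finset.mul_sum]
    have e2 : (0 : ℝ) ≤ 12 * C ^ 2 * (Real.log Z) ^ (1 / 2 : ℝ) := by
      have := Real.rpow_nonneg hL.le (1 / 2 : ℝ)
      positivity
    apply mul_le_mul_of_nonneg_left _ e2
    refine le_trans (hts Z hZt) ?_
    exact mul_le_mul_of_nonneg_right (le_abs_self _) hL.le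
  have h3 : (0 : ℝ) ≤ |Cp| * XX K Z * (Real.log Z) ^ (-(3 / 2) : ℝ) := by
    have := Real.rpow_nonneg hL.le (-(3 / 2) : ℝ)
    positivity
  refine le_trans h1 (le_trans (mul_le_mul_of_nonneg_left h2 h3) (le_of_eq ?_))
  have h4 : (Real.log Z) ^ (-(3 / 2) : ℝ) * ((Real.log Z) ^ (1 / 2 : ℝ) * Real.log Z) = 1 := by
    have h5 : Real.log Z = (Real.log Z) ^ (1 : ℝ) := (Real.rpow_one _).symm
    nth_rewrite 3 [h5]
    rw [← Real.rpow_add hL, ← Real.rpow_add hL]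
    norm_num
  calc |Cp| * XX K Z * (Real.log Z) ^ (-(3 / 2) : ℝ) *
        (12 * C ^ 2 * (Real.log Z) ^ (1 / 2 : ℝ) * (|Ct| * Real.log Z))
      = |Cp| * (12 * C ^ 2 * |Ct|) * XX K Z * ((Real.log Z) ^ (-(3 / 2) : ℝ) *
        ((Real.log Z) ^ (1 / 2 : ℝ) * Real.log Z)) := by ring
    _ = |Cp| * (12 * C ^ 2 * |Ct|) * XX K Z := by rw [h4, mul_one]

end Pool.Agent.Lib.MP_ba0fa5_ag.H75
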